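import Pool.Agent.Helper66.QJ.Access

set_option autoImplicit false

/-!
# A criterion for the decomposability of quadratic Julia sets

Let `0` be in the Julia set `J` of `z ^ 2 + c` (true for all Siegel and all Cremer parameters on the boundary of the main
cardioid). Then `J` is decomposable if and only if some proper subcontinuum of `J` contains the critical point `0` and a
point which is accessible from the basin of infinity.
-/

open Set

namespace Pool.Agent.Results.MP_a03adf_an.CriticalComposant

/-- the points with bounded orbit under `z ^ 2 + c` -/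
def Filled (c : ℂ) : Set ℂ :=
  {z : ℂ | Bornology.IsBounded (Set.range (fun n : ℕ => (fun w : ℂ => w ^ 2 + c)^[n] z))}

/-- the Julia set of `z ^ 2 + c` -/
def Julia (c : ℂ) : Set ℂ := frontier (Filled c)

/-- `J` is the union of two proper subcontinua -/
def Decomposable (J : Set ℂ) : Prop :=
  ∃ A B : Set ℂ, A ⊆ J ∧ B ⊆ J ∧ A ≠ J ∧ B ≠ J ∧
    IsCompact A ∧ IsConnected A ∧ IsCompact B ∧ IsConnected B ∧ A ∪ B = J

/-- `z` is a point of the Julia set and the endpoint of a path all of whose other points have unbounded orbit -/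
def Accessible (c z : ℂ) : Prop :=
  z ∈ Julia c ∧ ∃ γ : ℝ → ℂ, ContinuousOn γ (Icc 0 1) ∧ γ 1 = z ∧ ∀ t ∈ Ico (0 : ℝ) 1, γ t ∉ Filled c

theorem result (c : ℂ) (h0 : (0 : ℂ) ∈ Julia c) : Decomposable (Julia c) ↔
    ∃ C : Set ℂ, C ⊆ Julia c ∧ C ≠ Julia c ∧ IsCompact C ∧ IsConnected C ∧ (0 : ℂ) ∈ C ∧
      ∃ z ∈ C, Accessible c z :=
  Pool.Agent.Helper66.QJ.dec_iff h0

end Pool.Agent.Results.MP_a03adf_an.CriticalComposant
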