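import Pool.Agent.Helper96.AD.Main

set_option autoImplicit false

/-!
# Indecomposable quadratic Julia sets are irreducible between the critical point and the critical value

Let `f z = z ^ 2 + c`, let the critical point `0` be in the Julia set `J` and recurrent (by a theorem of Mañé this is the
case for all Siegel and all Cremer parameters). Then `J` is decomposable if and only if some proper subcontinuum of `J`
contains the critical point `0` and the critical value `c`.
-/

open Set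

namespace Pool.Agent.Results.MP_a03adf_an.CriticalValue

/-- the points with bounded orbit under `z ^ 2 + c` -/
def Filled (c : ℂ) : Set ℂ :=
  {z : ℂ | Bornology.IsBounded (Set.range (fun n : ℕ => (fun w : ℂ => w ^ 2 + c)^[n] z))}

/-- the Julia set of `z ^ 2 + c` -/
def Julia (c : ℂ) : Set ℂ := frontier (Filled c)

/-- `J` is the union of two proper subcontinua -/
def Decomposable (J : Set ℂ) : Prop :=
  ∃ A B : Set ℂ, A ⊆ J ∧ B ⊆ J ∧ A ≠ J ∧ B ≠ J ∧
    IsCompact A ∧ IsConnected A ∧ IsCompact B ∧ IsConnected B ∧ A ∪ B = J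

/-- the critical point `0` of `z ^ 2 + c` is recurrent -/
def RecurrentZero (c : ℂ) : Prop :=
  ∀ n : ℕ, (0 : ℂ) ∈ closure {z : ℂ | ∃ k : ℕ, n < k ∧ z = (fun w : ℂ => w ^ 2 + c)^[k] 0}

theorem result (c : ℂ) (h0 : (0 : ℂ) ∈ Julia c) (hrec : RecurrentZero c) : Decomposable (Julia c) ↔
    ∃ T : Set ℂ, T ⊆ Julia c ∧ T ≠ Julia c ∧ IsCompact T ∧ IsConnected T ∧ (0 : ℂ) ∈ T ∧ c ∈ T := by
  have h1 := Pool.Agent.Helper96.AD.dec_iff_common (c := c) h0 fun n => by
    refine closure_mono ?_ (hrec n)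
    rintro z ⟨k, hk, rfl⟩
    exact ⟨k, hk, rfl⟩
  constructor
  · intro hD
    obtain ⟨T, hT, hTc, hTJ, hTn, h0T, hcT⟩ := h1.1 hD
    exact ⟨T, hTJ, hTn, hT, ⟨⟨0, h0T⟩, hTc⟩, h0T, hcT⟩
  · rintro ⟨T, hTJ, hTn, hT, hTc, h0T, hcT⟩
    exact h1.2 ⟨T, hT, hTc.isPreconnected, hTJ, hTn, h0T, hcT⟩

end Pool.Agent.Results.MP_a03adf_an.CriticalValue
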