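import Pool.Agent.Helper83.AD.Leo

set_option autoImplicit false

/-!
# Quadratic Julia sets and invariant continua through the critical point

Let `X` be a continuum of points with bounded orbit under `f z = z ^ 2 + c` which contains the critical point `0` and
satisfies `f X = X`. If `X` does not contain the Julia set `J` of `f`, then `J` is decomposable.
-/

open Set

namespace Pool.Agent.Results.MP_a03adf_an.InvariantContinuum

/-- the points with bounded orbit under `z ^ 2 + c` -/
def Filled (c : ℂ) : Set ℂ :=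
  {z : ℂ | Bornology.IsBounded (Set.range (fun n : ℕ => (fun w : ℂ => w ^ 2 + c)^[n] z))}

/-- the Julia set of `z ^ 2 + c` -/
def Julia (c : ℂ) : Set ℂ := frontier (Filled c)

/-- `J` is the union of two proper subcontinua -/
def Decomposable (J : Set ℂ) : Prop :=
  ∃ A B : Set ℂ, A ⊆ J ∧ B ⊆ J ∧ A ≠ J ∧ B ≠ J ∧
    IsCompact A ∧ IsConnected A ∧ IsCompact B ∧ IsConnected B ∧ A ∪ B = J

theorem result (c : ℂ) (X : Set ℂ) (hX : IsCompact X) (hXc : IsConnected X) (hXK : X ⊆ Filled c)
    (h0 : (0 : ℂ) ∈ X) (hfX : (fun w : ℂ => w ^ 2 + c) '' X = X) (hJX : ¬ Julia c ⊆ X) :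
    Decomposable (Julia c) :=
  Pool.Agent.Helper83.AD.dec_of_inv_final (c := c) hX hXc.isPreconnected hXK h0 hfX hJX

end Pool.Agent.Results.MP_a03adf_an.InvariantContinuum
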