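import Pool.Agent.Helper83.AD.MainS

set_option autoImplicit false

/-!
# Continua in the filled Julia set joining the critical point to its image

Let `f z = z ^ 2 + c` and let the critical point `0` be in the Julia set `J`. If some continuum `T` of points with bounded
orbit contains `0` and meets its image `f T`, and `T ∩ J` has no interior points relative to `J`, then `J` is decomposable,
unless the whole orbit of `0` is in `T ∪ f T` and `0` is not recurrent (this does not happen for Siegel and Cremer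
parameters, by a theorem of Mañé). In particular `J` is decomposable if `0` is accessible from the Siegel disk.
-/

open Set

namespace Pool.Agent.Results.MP_a03adf_an.JoinContinuum

/-- the points with bounded orbit under `z ^ 2 + c` -/
def Filled (c : ℂ) : Set ℂ :=
  {z : ℂ | Bornology.IsBounded (Set.range (fun n : ℕ => (fun w : ℂ => w ^ 2 + c)^[n] z))}

/-- the Julia set of `z ^ 2 + c` -/
def Julia (c : ℂ) : Set ℂ := frontier (Filled c)

/-- `J` is the union of two proper subcontinua -/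
def Decomposable (J : Set ℂ) : Prop :=
  ∃ A B : Set ℂ, A ⊆ J ∧ B ⊆ J ∧ A ≠ J ∧ B ≠ J ∧
    IsCompact A ∧ IsConnected A ∧ IsCompact B ∧ IsConnected B ∧ A ∪ B = J

theorem result (c : ℂ) (h0 : (0 : ℂ) ∈ Julia c) (T : Set ℂ) (hT : IsCompact T) (hTc : IsConnected T)
    (hTK : T ⊆ Filled c) (h0T : (0 : ℂ) ∈ T) (hTf : (T ∩ (fun w : ℂ => w ^ 2 + c) '' T).Nonempty)
    (hTJ : Julia c ⊆ closure (Julia c \ T))
    (hrec : (∀ k : ℕ, (fun w : ℂ => w ^ 2 + c)^[k] 0 ∈ T ∪ (fun w : ℂ => w ^ 2 + c) '' T) →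
      ∀ n : ℕ, (0 : ℂ) ∈ closure {z : ℂ | ∃ k : ℕ, n < k ∧ z = (fun w : ℂ => w ^ 2 + c)^[k] 0}) :
    Decomposable (Julia c) := by
  refine Pool.Agent.Helper83.AD.dec_of_joinS (c := c) h0 hT hTc.isPreconnected hTK h0T hTf ?_ fun hinv n => ?_
  · rintro U hU ⟨x, hxU, hxJ⟩ hsub
    obtain ⟨y, hyU, hyJ, hyT⟩ := mem_closure_iff.1 (hTJ hxJ) U hU hxU
    exact hyT (hsub ⟨hyU, hyJ⟩)
  · have hUc : IsCompact (T ∪ Pool.Agent.Helper66.QJ.f c '' T) :=
      hT.union (hT.image (Pool.Agent.Helper66.QJ.continuous_f c))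
    have hUK : T ∪ Pool.Agent.Helper66.QJ.f c '' T ⊆ Pool.Agent.Helper66.QJ.K c := by
      rintro z (hz | ⟨w, hw, rfl⟩)
      · exact hTK hz
      · exact Pool.Agent.Helper66.QJ.f_mem_K_iff.2 (hTK hw)
    have horb : ∀ k : ℕ, (Pool.Agent.Helper66.QJ.f c)^[k] 0 ∈
        Pool.Agent.Helper83.AD.Hl c (T ∪ Pool.Agent.Helper66.QJ.f c '' T) := by
      intro k
      induction k with
      | zero => exact Pool.Agent.Helper83.AD.sub_Hl (Or.inl h0T)
      | succ k ih =>
        rw [Function.iterate_succ_apply']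
        exact hinv ⟨_, ih, rfl⟩
    have horb' : ∀ k : ℕ, (fun w : ℂ => w ^ 2 + c)^[k] 0 ∈ T ∪ (fun w : ℂ => w ^ 2 + c) '' T := fun k =>
      Pool.Agent.Helper83.AD.Hl_J hUc hUK ((Pool.Agent.Helper83.AD.iter_mem_J k).2 h0) (horb k)
    refine closure_mono ?_ (hrec horb' n)
    rintro z ⟨k, hk, rfl⟩
    exact ⟨k, hk, rfl⟩

end Pool.Agent.Results.MP_a03adf_an.JoinContinuum
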